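import Pool.Agent.Helper33.NS4

/-!
# The Singer conjecture for the right-angled Coxeter groups of ALL flag spheres, up to the bad simplices

Let the flag complex `L` of the finite graph `G` be a real homology manifold with the real homology of
the sphere of odd dimension `2 m + 1` (`HSph`; for example any flag triangulation of the
`(2 m + 1)`-sphere).  The torsion-free subgroups of finite index of the right-angled Coxeter group `W G`
are then the fundamental groups of closed aspherical (real homology) manifolds of dimension
`n = 2 m + 2`.

For each degree `i > n / 2` let `B i` be a set of vertices which contains all the vertices whose links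
are not in the class `AQ (2 i - 3)` of the starting library (graphs all of whose full subgraphs have
vanishing `ℓ²`-homology in the degrees `≥ i - 1`; the class `AQ (n - 1)` contains, for instance, all the
barycentric subdivisions of triangulated `(n - 2)`-spheres).  There is no condition on `B i` itself, and
`B i` may contain all the vertices.
-/

set_option autoImplicit false

namespace Pool.Agent.Results.MP_577489_gt.BadVertices

open Pool.Agent.W907.SG Pool.Agent.TH652.Above Pool.Agent.Y132.SI
open Pool.Agent.Helper33.NS (cliqueNum)
open Pool.Agent.Helper33.NSF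

/-- (1) If `i > n / 2` and no clique with `i` elements is contained in `B i` then the reduced
`ℓ²`-homology of the Davis complex vanishes in the degrees `i` and `n - i`.
(2) In general the Betti numbers of all far enough subgroups `H` of finite index of the commutator
subgroup of `W G`, divided by the index, are at most `f_i / 2^i + ε` in the degrees `i` and `n - i`,
for `i > n / 2`, where `f_i` is the number of the cliques with `i` elements contained in `B i`; in the
middle degree the quotient is between `|χ| - 2 (f_{m+3} / 2^{m+3} + f_{m+5} / 2^{m+5} + ...) - ε` and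
`|χ| + 2 (f_{m+2} / 2^{m+2} + f_{m+4} / 2^{m+4} + ...) + ε` where `|χ|` stands for
`(-1)^{m+1} χ(W G)`. -/
theorem result (m : ℕ) (V : Type) [Fintype V] [LinearOrder V] (G : SimpleGraph V)
    (hS : HSph (2 * m + 2) G) (B : ℕ → Set V) (hB : GoodOutside G B (m + 2)) :
    (∀ i : ℕ, m + 1 < i → cliqueNum G (B i) i = 0 →
      L2Van G i ∧ ∀ j, i + j = 2 * m + 2 → L2Van G j) ∧
    ∀ ε : ℝ, 0 < ε → ∃ E : Finset (W G), (1 : W G) ∉ E ∧
      ∀ H : Subgroup (W G), H ≤ commutator (W G) → H.FiniteIndex →
        (∀ g ∈ E, ∀ x : W G, x * g * x⁻¹ ∉ H) →
        (∀ i : ℕ, m + 1 < i → (Module.finrank ℝ (HInv G H i) : ℝ) ≤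
          ((cliqueNum G (B i) i : ℝ) / 2 ^ i + ε) * H.index) ∧
        (∀ i : ℕ, i < m + 1 → (Module.finrank ℝ (HInv G H i) : ℝ) ≤
          ((cliqueNum G (B (2 * m + 2 - i)) (2 * m + 2 - i) : ℝ) / 2 ^ (2 * m + 2 - i) + ε) *
            H.index) ∧
        (Module.finrank ℝ (HInv G H (m + 1)) : ℝ) ≤
          ((-1) ^ (m + 1) * (chiW G : ℝ) + 2 * (badEven G B m : ℝ) + ε) * H.index ∧
        ((-1) ^ (m + 1) * (chiW G : ℝ) - 2 * (badOdd G B m : ℝ) - ε) * H.index ≤
          (Module.finrank ℝ (HInv G H (m + 1)) : ℝ) :=
  ⟨fun i hi h0 => l2van_sphere G m hS B hB i hi h0, fun ε hε => near_singer G m hS B hB ε hε⟩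

end Pool.Agent.Results.MP_577489_gt.BadVertices
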